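import Pool.Agent.W275.UB.Den

set_option autoImplicit false

namespace Pool.Agent.W918.UB.Win

open Pool.Agent.W275.UB

theorem main : S_win := by
  classical
  intro ι _ δ H q L S hq hqL hS hcard
  set M := Fintype.card ι with hM
  let A : Finset (ι → ℤ) := Fintype.piFinset fun _ : ι => Finset.Icc (-(H : ℤ) - q * L) (H : ℤ)
  let T : Finset (ι → ℤ) := Fintype.piFinset fun _ : ι => Finset.Ico (0 : ℤ) (L : ℤ)
  let Th : (ι → ℤ) → Finset (ι → ℤ) := fun a =>
    T.filter fun t => (fun i => a i + (q : ℤ) * t i) ∈ S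
  have hAcard : A.card = (2 * H + 1 + q * L) ^ M := by
    simp only [A]
    rw [Fintype.card_piFinset, Finset.prod_const, Finset.card_univ, Int.card_Icc]
    congr 1
    have : (H : ℤ) + 1 - (-(H : ℤ) - q * L) = ((2 * H + 1 + q * L : ℕ) : ℤ) := by
      push_cast
      ring
    rw [this, Int.toNat_natCast]
  have hTcard : T.card = L ^ M := by
    simp only [T]
    rw [Fintype.card_piFinset, Finset.prod_const, Finset.card_univ, Int.card_Ico]
    simp [hM]
  -- double counting
  have hsum : ∑ a ∈ A, (Th a).card = L ^ M * S.card := by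
    have h1 : ∑ a ∈ A, (Th a).card = ∑ t ∈ T, (A.filter fun a =>
        (fun i => a i + (q : ℤ) * t i) ∈ S).card := by
      simp only [Th, Finset.card_filter]
      exact Finset.sum_comm
    rw [h1, ← hTcard, ← smul_eq_mul, ← Finset.sum_const]
    refine Finset.sum_congr rfl fun t ht => ?_
    have ht' : ∀ i, 0 ≤ t i ∧ t i < L := by
      intro i
      have := Fintype.mem_piFinset.1 ht i
      rwa [Finset.mem_Ico] at this
    refine Finset.card_bij' (fun a _ => fun i => a i + (q : ℤ) * t i)
      (fun v _ => fun i => v i - (q : ℤ) * t i) ?_ ?_ ?_ ?_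
    · intro a ha
      exact (Finset.mem_filter.1 ha).2
    · intro v hv
      rw [Finset.mem_filter]
      constructor
      · rw [Fintype.mem_piFinset]
        intro i
        have h2 := abs_le.1 (hS v hv i)
        have h3 := ht' i
        have hq' : (0 : ℤ) < q := by exact_mod_cast hq
        rw [Finset.mem_Icc]
        constructor
        · nlinarith
        · nlinarith
      · have : (fun i => (fun i => v i - (q : ℤ) * t i) i + (q : ℤ) * t i) = v := by
          funext i
          ring
        rw [this]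
        exact hv
    · intro a _
      funext i
      ring
    · intro v _
      funext i
      ring
  by_contra hcon
  push Not at hcon
  have hlt : ∀ a : ι → ℤ, ((Th a).card : ℝ) < δ * (L / 2 : ℝ) ^ M := by
    intro a
    refine hcon a (Th a) ?_ ?_
    · intro t ht i
      have := Fintype.mem_piFinset.1 (Finset.mem_filter.1 ht).1 i
      rwa [Finset.mem_Ico] at this
    · intro t ht
      exact (Finset.mem_filter.1 ht).2
  have hAne : A.Nonempty := by
    rw [← Finset.card_pos, hAcard]
    positivity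
  have h1 : ∑ a ∈ A, ((Th a).card : ℝ) < ∑ _a ∈ A, δ * (L / 2 : ℝ) ^ M :=
    Finset.sum_lt_sum_of_nonempty hAne fun a _ => hlt a
  rw [Finset.sum_const, hAcard, nsmul_eq_mul] at h1
  have h2 : ∑ a ∈ A, ((Th a).card : ℝ) = (L : ℝ) ^ M * S.card := by
    have := congrArg (fun n : ℕ => (n : ℝ)) hsum
    push_cast at this
    exact this
  rw [h2] at h1
  have h3 : 0 < δ * (L / 2 : ℝ) ^ M := lt_of_le_of_lt (Nat.cast_nonneg _) (hlt 0)
  have h4 : (((2 * H + 1 + q * L) ^ M : ℕ) : ℝ) ≤ (2 * (2 * H + 1 : ℝ)) ^ M := by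
    push_cast
    refine pow_le_pow_left₀ (by positivity) ?_ M
    have : ((q * L : ℕ) : ℝ) ≤ ((2 * H + 1 : ℕ) : ℝ) := by exact_mod_cast hqL
    push_cast at this
    linarith
  have h5 : (((2 * H + 1 + q * L) ^ M : ℕ) : ℝ) * (δ * (L / 2 : ℝ) ^ M) ≤
      (2 * (2 * H + 1 : ℝ)) ^ M * (δ * (L / 2 : ℝ) ^ M) :=
    mul_le_mul_of_nonneg_right h4 h3.le
  have h6 : (2 * (2 * H + 1 : ℝ)) ^ M * (δ * (L / 2 : ℝ) ^ M) =
      (L : ℝ) ^ M * (δ * (2 * H + 1 : ℝ) ^ M) := by
    rw [mul_pow, div_pow]
    field_simp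
  have h7 : (L : ℝ) ^ M * (δ * (2 * H + 1 : ℝ) ^ M) ≤ (L : ℝ) ^ M * S.card :=
    mul_le_mul_of_nonneg_left hcard (by positivity)
  linarith

end Pool.Agent.W918.UB.Win
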